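import Pool.Agent.W559.GF.Stm

/-! Project GF (helper883): `LinStm`. -/

set_option autoImplicit false

namespace Pool.Agent.W883.GF

open Pool.Agent.W559.GF

/-- the linear substitution -/
noncomputable def Lg {K : Type} [Field K] {N : ℕ} (g : Matrix (Fin (N + 1)) (Fin (N + 1)) K)
    (i : Fin (N + 1)) : MvPolynomial (Fin (N + 1)) K :=
  ∑ j, MvPolynomial.C (g i j) * MvPolynomial.X j

lemma Lg_hom {K : Type} [Field K] {N : ℕ} (g : Matrix (Fin (N + 1)) (Fin (N + 1)) K)
    (i : Fin (N + 1)) : (Lg g i).IsHomogeneous 1 := by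
  unfold Lg
  refine MvPolynomial.IsHomogeneous.sum _ _ _ fun j _ => ?_
  have h := (MvPolynomial.isHomogeneous_C (Fin (N + 1)) (g i j)).mul
    (MvPolynomial.isHomogeneous_X K j)
  simpa using h

lemma comp_id {K : Type} [Field K] {N : ℕ} (g g' : Matrix (Fin (N + 1)) (Fin (N + 1)) K)
    (h : g * g' = 1) (P : MvPolynomial (Fin (N + 1)) K) :
    MvPolynomial.aeval (Lg g') (MvPolynomial.aeval (Lg g) P) = P := by
  have h1 : MvPolynomial.aeval (Lg g') (MvPolynomial.aeval (Lg g) P) =
      MvPolynomial.aeval (fun i => MvPolynomial.aeval (Lg g') (Lg g i)) P := by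
    rw [← AlgHom.comp_apply, MvPolynomial.comp_aeval]
  have h2 : (fun i => MvPolynomial.aeval (Lg g') (Lg g i)) = MvPolynomial.X := by
    funext i
    have h3 : MvPolynomial.aeval (Lg g') (Lg g i) =
        ∑ j, ∑ k, MvPolynomial.C (g i j * g' j k) * MvPolynomial.X k := by
      conv_lhs => rw [Lg]
      rw [map_sum]
      refine Finset.sum_congr rfl fun j _ => ?_
      rw [map_mul, MvPolynomial.aeval_X, MvPolynomial.aeval_C, MvPolynomial.algebraMap_eq]
      unfold Lg
      rw [Finset.mul_sum]
      refine Finset.sum_congr rfl fun k _ => ?_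
      rw [MvPolynomial.C_mul]
      ring
    rw [h3, Finset.sum_comm]
    have h4 : ∀ k : Fin (N + 1), ∑ j, MvPolynomial.C (g i j * g' j k) * MvPolynomial.X k =
        MvPolynomial.C ((1 : Matrix (Fin (N + 1)) (Fin (N + 1)) K) i k) *
          (MvPolynomial.X k : MvPolynomial (Fin (N + 1)) K) := by
      intro k
      rw [← Finset.sum_mul, ← map_sum, ← h, Matrix.mul_apply]
    rw [Finset.sum_congr rfl (fun k _ => h4 k), Finset.sum_eq_single i]
    · simp
    · intro k _ hk
      rw [Matrix.one_apply_ne (Ne.symm hk)]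
      simp
    · intro hi
      exact absurd (Finset.mem_univ i) hi
  rw [h1, h2, MvPolynomial.aeval_X_left_apply]

/-- `LinStm` -/
theorem lin : LinStm := by
  intro K F _ _ _ N d Φ Ψ hΨ hd hΨ0 g g' hgg hΦ x hx hrel
  have hΦ' : MvPolynomial.aeval (Lg g) Φ = Ψ := hΦ
  have hg'g : g' * g = 1 := mul_eq_one_comm.1 hgg
  have hy : ∀ i, MvPolynomial.aeval x (Lg g i) = ∑ j, algebraMap K F (g i j) * x j := by
    intro i
    unfold Lg
    rw [map_sum]
    refine Finset.sum_congr rfl fun j _ => ?_
    rw [map_mul, MvPolynomial.aeval_X, MvPolynomial.aeval_C]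
  have hcomp : ∀ P : MvPolynomial (Fin (N + 1)) K,
      MvPolynomial.aeval (fun i => ∑ j, algebraMap K F (g i j) * x j) P =
      MvPolynomial.aeval x (MvPolynomial.aeval (Lg g) P) := by
    intro P
    rw [← AlgHom.comp_apply, MvPolynomial.comp_aeval]
    congr 2
    funext i
    exact (hy i).symm
  refine ⟨?_, ?_, ?_, ?_⟩
  · rw [hcomp, hΦ', hx]
  · intro i hi
    rw [← hy i] at hi
    obtain ⟨Q, hQ⟩ := hrel 1 (Lg g i) (Lg_hom g i) hi
    have hne : Lg g i ≠ 0 := by
      intro h0
      have h1 := congrArg (fun M : Matrix (Fin (N + 1)) (Fin (N + 1)) K => M i i) hgg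
      simp only [Matrix.mul_apply, Matrix.one_apply_eq] at h1
      have h2 : ∀ j, g i j = 0 := by
        intro j
        have h3 := congrArg (MvPolynomial.coeff (Finsupp.single j 1)) h0
        unfold Lg at h3
        rw [MvPolynomial.coeff_sum, Finset.sum_eq_single j] at h3
        · simpa using h3
        · intro k _ hk
          rw [MvPolynomial.coeff_C_mul, MvPolynomial.coeff_X, if_neg, mul_zero]
          intro h4
          exact hk (Finsupp.single_left_injective one_ne_zero h4)
        · intro hj
          exact absurd (Finset.mem_univ j) hj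
      rw [Finset.sum_eq_zero (fun j _ => by rw [h2 j, zero_mul])] at h1
      exact zero_ne_one h1
    have hQ0 : Q ≠ 0 := by
      rintro rfl
      rw [mul_zero] at hQ
      exact hne hQ
    have h5 := MvPolynomial.totalDegree_mul_of_isDomain hΨ0 hQ0
    rw [← hQ, hΨ.totalDegree hΨ0, (Lg_hom g i).totalDegree hne] at h5
    omega
  · apply le_antisymm
    · rw [Submodule.span_le]
      rintro _ ⟨i, rfl⟩
      refine Submodule.sum_mem _ fun j _ => ?_
      rw [← Algebra.smul_def]
      exact Submodule.smul_mem _ _ (Submodule.subset_span ⟨j, rfl⟩)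
    · rw [Submodule.span_le]
      rintro _ ⟨i, rfl⟩
      have h1 : x i = ∑ j, g' i j • ∑ k, algebraMap K F (g j k) * x k := by
        have h2 : ∀ j, g' i j • ∑ k, algebraMap K F (g j k) * x k =
            ∑ k, algebraMap K F (g' i j * g j k) * x k := by
          intro j
          rw [Finset.smul_sum]
          refine Finset.sum_congr rfl fun k _ => ?_
          rw [Algebra.smul_def, map_mul]
          ring
        rw [Finset.sum_congr rfl (fun j _ => h2 j), Finset.sum_comm]
        have h3 : ∀ k, ∑ j, algebraMap K F (g' i j * g j k) * x k =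
            algebraMap K F ((1 : Matrix (Fin (N + 1)) (Fin (N + 1)) K) i k) * x k := by
          intro k
          rw [← Finset.sum_mul, ← map_sum, ← hg'g, Matrix.mul_apply]
        rw [Finset.sum_congr rfl (fun k _ => h3 k), Finset.sum_eq_single i]
        · simp
        · intro k _ hk
          rw [Matrix.one_apply_ne (Ne.symm hk)]
          simp
        · intro hi
          exact absurd (Finset.mem_univ i) hi
      rw [h1]
      refine Submodule.sum_mem _ fun j _ => ?_
      exact Submodule.smul_mem _ _ (Submodule.subset_span ⟨j, rfl⟩)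
  · intro e G hG hG0
    rw [hcomp] at hG0
    have h1 : (MvPolynomial.aeval (Lg g) G).IsHomogeneous e := by
      have := hG.aeval (Lg g) (fun i => Lg_hom g i)
      rwa [one_mul] at this
    have h2 := hrel e _ h1 hG0
    have h3 := map_dvd (MvPolynomial.aeval (Lg g')) h2
    rwa [← hΦ', comp_id g g' hgg, comp_id g g' hgg] at h3

end Pool.Agent.W883.GF
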